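import Mathlib

/-!
# Multipoint trajectories under discrete acceleration: definitions
-/

namespace Pool.Agent.Q331.Traj

/-- `p i`, `v i` (position and velocity) for `i ≤ ℓ` form a trajectory of length `ℓ`:
`v (i + 1) = p (i + 1) - p i` and every coordinate of the velocity changes by at most one in each
step. -/
def IsTraj {d : ℕ} (ℓ : ℕ) (p v : ℕ → Fin d → ℤ) : Prop :=
  ∀ i < ℓ, (∀ k, v (i + 1) k = p (i + 1) k - p i k) ∧ ∀ k, |v (i + 1) k - v i k| ≤ 1

/-- The configuration `(p, v)` visits `x`: the point `x` lies on the closed segment in `ℝ ^ d` from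
`p - v` to `p`. -/
def Visits {d : ℕ} (p v x : Fin d → ℤ) : Prop :=
  (fun k => (x k : ℝ)) ∈ segment ℝ (fun k => (p k : ℝ) - v k) (fun k => (p k : ℝ))

/-- A feasible trajectory of length `ℓ` for the cities `x 0, ..., x n`: it starts at rest in `x 0`,
ends at rest in `x n` and visits `x 0, ..., x n` in this order. -/
structure Feasible {d n : ℕ} (x : Fin (n + 1) → Fin d → ℤ) (ℓ : ℕ) (p v : ℕ → Fin d → ℤ) :
    Prop where
  traj : IsTraj ℓ p v
  start_pos : p 0 = x 0
  start_vel : v 0 = 0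
  end_pos : p ℓ = x (Fin.last n)
  end_vel : v ℓ = 0
  visits : ∃ i : Fin (n + 1) → ℕ, Monotone i ∧ (∀ j, i j ≤ ℓ) ∧
    ∀ j, Visits (p (i j)) (v (i j)) (x j)

/-- An optimal trajectory: a feasible one of least length. -/
def Optimal {d n : ℕ} (x : Fin (n + 1) → Fin d → ℤ) (ℓ : ℕ) (p v : ℕ → Fin d → ℤ) : Prop :=
  Feasible x ℓ p v ∧ ∀ (ℓ' : ℕ) (p' v' : ℕ → Fin d → ℤ), Feasible x ℓ' p' v' → ℓ ≤ ℓ'

/-- The number `L`: the largest difference of two cities in one coordinate. -/
def spread {d n : ℕ} (x : Fin (n + 1) → Fin d → ℤ) : ℕ :=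
  Finset.univ.sup fun j => Finset.univ.sup fun j' => Finset.univ.sup fun k =>
    (x j k - x j' k).natAbs

end Pool.Agent.Q331.Traj
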