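import Pool.Agent.Q331.Traj.Defs

/-!
# Lower bounds for trajectories of bounded speed
-/

open Finset

namespace Pool.Agent.Q331.Traj

section OneDim

variable {u : ℕ → ℤ} {τ : ℕ}

theorem drift (h : ∀ i < τ, |u (i + 1) - u i| ≤ 1) {i j : ℕ} (hij : i ≤ j) (hj : j ≤ τ) :
    |u j - u i| ≤ (j - i : ℤ) := by
  induction j, hij using Nat.le_induction with
  | base => simp
  | succ j hij ih =>
    have h1 := ih (by omega)
    have h2 := h j (by omega)
    have : u (j + 1) - u i = (u (j + 1) - u j) + (u j - u i) := by ring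
    rw [this]
    refine (abs_add_le _ _).trans ?_
    push_cast
    linarith

theorem abs_le_left (h : ∀ i < τ, |u (i + 1) - u i| ≤ 1) {i : ℕ} (hi : i ≤ τ) :
    |u i| ≤ |u 0| + i := by
  have h1 := drift h (Nat.zero_le i) hi
  have h2 : |u i| ≤ |u i - u 0| + |u 0| := by
    have := abs_add_le (u i - u 0) (u 0)
    simpa using this
  push_cast at h1
  linarith

theorem abs_le_right (h : ∀ i < τ, |u (i + 1) - u i| ≤ 1) {i : ℕ} (hi : i ≤ τ) :
    |u i| ≤ |u τ| + (τ - i) := by
  have h1 := drift h hi le_rfl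
  have h2 : |u i| ≤ |u τ - u i| + |u τ| := by
    have := abs_add_le (-(u τ - u i)) (u τ)
    rw [abs_neg] at this
    have e : -(u τ - u i) + u τ = u i := by ring
    rwa [e] at this
  linarith

/-- The displacement in `τ` steps with speed at most `V`, using ramps of length `s`. -/
theorem ramp (h : ∀ i < τ, |u (i + 1) - u i| ≤ 1) {V : ℝ} (hV : ∀ i ≤ τ, (|u i| : ℝ) ≤ V) {s : ℕ}
    (hs : 2 * s ≤ τ) :
    |∑ i ∈ range τ, (u (i + 1) : ℝ)| ≤
      (τ - 2 * s) * V + s * (|(u 0 : ℝ)| + |(u τ : ℝ)|) + s ^ 2 := by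
  obtain ⟨m, hm⟩ : ∃ m, τ = s + m + s := ⟨τ - 2 * s, by omega⟩
  have h0 : |∑ i ∈ range τ, (u (i + 1) : ℝ)| ≤ ∑ i ∈ range τ, |(u (i + 1) : ℝ)| := by
    exact abs_sum_le_sum_abs _ _
  have h1 : ∑ i ∈ range τ, |(u (i + 1) : ℝ)| =
      (∑ i ∈ range s, (|(u (i + 1) : ℝ)| + |(u (s + m + i + 1) : ℝ)|)) +
        ∑ i ∈ range m, |(u (s + i + 1) : ℝ)| := by
    rw [hm, sum_range_add, sum_range_add, sum_add_distrib]
    ring
  have h2 : ∑ i ∈ range m, |(u (s + i + 1) : ℝ)| ≤ m * V := by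
    calc ∑ i ∈ range m, |(u (s + i + 1) : ℝ)| ≤ ∑ i ∈ range m, V :=
          sum_le_sum fun i hi => hV _ (by have := mem_range.1 hi; omega)
      _ = m * V := by simp
  have h3 : ∑ i ∈ range s, (|(u (i + 1) : ℝ)| + |(u (s + m + i + 1) : ℝ)|) ≤
      s * (|(u 0 : ℝ)| + |(u τ : ℝ)|) + s ^ 2 := by
    calc ∑ i ∈ range s, (|(u (i + 1) : ℝ)| + |(u (s + m + i + 1) : ℝ)|)
        ≤ ∑ i ∈ range s, (|(u 0 : ℝ)| + |(u τ : ℝ)| + s) := by
          refine sum_le_sum fun i hi => ?_
          have hi' := mem_range.1 hi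
          have a1 := abs_le_left h (i := i + 1) (by omega)
          have a2 := abs_le_right h (i := s + m + i + 1) (by omega)
          have a1' : |(u (i + 1) : ℝ)| ≤ |(u 0 : ℝ)| + (i + 1) := by exact_mod_cast a1
          have a2' : |(u (s + m + i + 1) : ℝ)| ≤ |(u τ : ℝ)| + (τ - (s + m + i + 1)) := by
            exact_mod_cast a2
          have e : (τ : ℝ) = s + m + s := by exact_mod_cast hm
          rw [e] at a2'
          linarith
      _ = s * (|(u 0 : ℝ)| + |(u τ : ℝ)|) + s ^ 2 := by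
          simp only [sum_const, card_range, nsmul_eq_mul]
          ring
  have e : (τ : ℝ) = s + m + s := by exact_mod_cast hm
  have h4 : ((τ : ℝ) - 2 * s) * V = m * V := by rw [e]; ring
  rw [h1] at h0
  linarith

/-- The inequality of a moving leg. -/
theorem moving (h : ∀ i < τ, |u (i + 1) - u i| ≤ 1) {V : ℝ} (hV : ∀ i ≤ τ, (|u i| : ℝ) ≤ V)
    {s : ℕ} {D : ℝ} (hD : D ≤ |∑ i ∈ range τ, (u (i + 1) : ℝ)|)
    (hs : 2 * V * s + V ≤ D + s ^ 2) (hsV : (s : ℝ) ≤ V) :
    D ≤ (τ - 2 * s) * V + s * (|(u 0 : ℝ)| + |(u τ : ℝ)|) + s ^ 2 := by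
  rcases le_or_gt (2 * s) τ with h1 | h1
  · exact hD.trans (ramp h hV h1)
  · have hV0 : 0 ≤ V := (Nat.cast_nonneg s).trans hsV
    set s' : ℕ := τ / 2 with hs'
    have h2 : 2 * s' ≤ τ := by omega
    have h3 : τ ≤ 2 * s' + 1 := by omega
    have h4 : s' < s := by omega
    have h5 := hD.trans (ramp h hV h2)
    have h3' : (τ : ℝ) ≤ 2 * s' + 1 := by exact_mod_cast h3
    have h4' : (s' : ℝ) ≤ s := by exact_mod_cast h4.le
    have h2' : 2 * (s' : ℝ) ≤ τ := by exact_mod_cast h2
    set A : ℝ := |(u 0 : ℝ)| + |(u τ : ℝ)| with hA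
    have hA0 : 0 ≤ A := by positivity
    have hs0 : (0 : ℝ) ≤ s' := Nat.cast_nonneg _
    -- `s' * A ≥ D - V - s' ^ 2`
    have h6 : D - V - s' ^ 2 ≤ s' * A := by
      have : ((τ : ℝ) - 2 * s') * V ≤ 1 * V := by
        gcongr; linarith
      linarith
    -- `2 V s' - s' ^ 2 ≤ 2 V s - s ^ 2`
    have h7 : 2 * V * s' - s' ^ 2 ≤ 2 * V * s - s ^ 2 := by nlinarith
    -- hence `A ≥ 2 V - 2 s'`
    rcases Nat.eq_zero_or_pos s' with h8 | h8
    · -- `s' = 0`
      have : (s' : ℝ) = 0 := by exact_mod_cast h8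
      rw [this] at h6
      have h9 : D ≤ V := by nlinarith
      have hs1 : (1 : ℝ) ≤ s := by
        have : 1 ≤ s := by omega
        exact_mod_cast this
      nlinarith
    · have h8' : (1 : ℝ) ≤ s' := by exact_mod_cast h8
      have h9 : (2 * V - 2 * s') * s' ≤ s' * A := by nlinarith
      have h10 : 2 * V - 2 * s' ≤ A := by
        have h11 : (2 * V - 2 * s') * s' ≤ A * s' := by linarith
        exact le_of_mul_le_mul_right h11 (by linarith)
      -- convexity
      nlinarith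

/-- The inequality of a waiting leg. -/
theorem waiting (h : ∀ i < τ, |u (i + 1) - u i| ≤ 1) {V : ℝ}
    (hD : |∑ i ∈ range τ, (u (i + 1) : ℝ)| ≤ 2 * V) (hτ : 2 * V < 3 * τ) :
    |(u 0 : ℝ)| + |(u τ : ℝ)| ≤ τ + 4 := by
  have key : ∃ r, 1 ≤ r ∧ r ≤ τ ∧ |u r| ≤ 2 := by
    by_contra hcon
    push Not at hcon
    -- WLOG `u 1 ≥ 3`
    have gen : ∀ w : ℕ → ℤ, (∀ i < τ, |w (i + 1) - w i| ≤ 1) →
        (∀ r, 1 ≤ r → r ≤ τ → 2 < |w r|) → 0 < w 1 →
        |∑ i ∈ range τ, (w (i + 1) : ℝ)| ≤ 2 * V → False := by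
      intro w hw h1 h2 h3
      have h4 : ∀ r < τ, 3 ≤ w (r + 1) := by
        intro r
        induction r with
        | zero =>
          intro hr
          have := h1 1 le_rfl (by omega)
          rw [abs_of_pos h2] at this
          rw [zero_add]
          omega
        | succ r ih =>
          intro hr
          have h5 := ih (by omega)
          have h6 := abs_le.1 (hw (r + 1) hr)
          have h7 := h1 (r + 1 + 1) (by omega) (by omega)
          have h8 : 0 < w (r + 1 + 1) := by omega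
          rw [abs_of_pos h8] at h7
          omega
      have h5 : (3 * τ : ℤ) ≤ ∑ i ∈ range τ, w (i + 1) := by
        calc (3 * τ : ℤ) = ∑ i ∈ range τ, (3 : ℤ) := by simp; ring
          _ ≤ _ := sum_le_sum fun i hi => h4 i (mem_range.1 hi)
      have h6 : (3 * τ : ℝ) ≤ ∑ i ∈ range τ, (w (i + 1) : ℝ) := by exact_mod_cast h5
      have h7 := le_abs_self (∑ i ∈ range τ, (w (i + 1) : ℝ))
      linarith
    have hτ1 : 1 ≤ τ := by
      by_contra h0
      have : τ = 0 := by omega
      subst this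
      simp only [range_zero, sum_empty] at hD
      norm_num at hD hτ
      linarith
    rcases lt_or_ge 0 (u 1) with h1 | h1
    · exact gen u h hcon h1 hD
    · have h2 := hcon 1 le_rfl hτ1
      have h3 : u 1 ≠ 0 := by
        intro h0; rw [h0] at h2; norm_num at h2
      refine gen (fun i => - u i) (fun i hi => ?_) (fun r h4 h5 => ?_) ?_ ?_
      · have := h i hi
        rw [← abs_neg] at this
        convert this using 2
        ring
      · simpa using hcon r h4 h5
      · show 0 < - u 1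
        omega
      · have : ∑ i ∈ range τ, (((fun i => - u i) (i + 1) : ℤ) : ℝ) =
            - ∑ i ∈ range τ, (u (i + 1) : ℝ) := by
          simp
        rw [this, abs_neg]
        exact hD
  obtain ⟨r, hr1, hr2, hr3⟩ := key
  have h1 := drift h (Nat.zero_le r) hr2
  have h2 := drift h hr2 le_rfl
  have h3 : |u 0| ≤ |u r - u 0| + |u r| := by
    have := abs_add_le (-(u r - u 0)) (u r)
    rw [abs_neg] at this
    have e : -(u r - u 0) + u r = u 0 := by ring
    rwa [e] at this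
  have h4 : |u τ| ≤ |u τ - u r| + |u r| := by
    have := abs_add_le (u τ - u r) (u r)
    simpa using this
  push_cast at h1
  have h5 : |u 0| + |u τ| ≤ (τ : ℤ) + 4 := by linarith
  exact_mod_cast h5

end OneDim

end Pool.Agent.Q331.Traj
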