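import Pool.Agent.Q331.Traj.Lower

/-!
# The square tour: lower bound for the length of a trajectory of bounded speed
-/

open Finset

namespace Pool.Agent.Q331.Traj

/-- The corners of the square of side `L`, in cyclic order. -/
def corner (L : ℤ) (j : ℕ) : Fin 2 → ℤ :=
  ![if j % 4 = 1 ∨ j % 4 = 2 then L else 0, if j % 4 = 2 ∨ j % 4 = 3 then L else 0]

theorem corner_even_zero {L : ℤ} {j : ℕ} (hL : 0 ≤ L) (hj : Even j) :
    |corner L (j + 1) 0 - corner L j 0| = L := by
  obtain ⟨m, rfl⟩ := hj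
  simp only [corner, Matrix.cons_val_zero]
  split_ifs with h1 h2 h2
  · omega
  · simp [abs_of_nonneg hL]
  · simp [abs_of_nonneg hL]
  · omega

theorem corner_even_one {L : ℤ} {j : ℕ} (hj : Even j) :
    corner L (j + 1) 1 = corner L j 1 := by
  obtain ⟨m, rfl⟩ := hj
  simp only [corner, Matrix.cons_val_one]
  split_ifs with h1 h2 h2
  · rfl
  · omega
  · omega
  · rfl

theorem corner_odd_one {L : ℤ} {j : ℕ} (hL : 0 ≤ L) (hj : Odd j) :
    |corner L (j + 1) 1 - corner L j 1| = L := by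
  obtain ⟨m, rfl⟩ := hj
  simp only [corner, Matrix.cons_val_one]
  split_ifs with h1 h2 h2
  · omega
  · simp [abs_of_nonneg hL]
  · simp [abs_of_nonneg hL]
  · omega

theorem corner_odd_zero {L : ℤ} {j : ℕ} (hj : Odd j) :
    corner L (j + 1) 0 = corner L j 0 := by
  obtain ⟨m, rfl⟩ := hj
  simp only [corner, Matrix.cons_val_zero]
  split_ifs with h1 h2 h2
  · rfl
  · omega
  · omega
  · rfl

theorem visits_abs {d : ℕ} {p v x : Fin d → ℤ} (h : Visits p v x) (k : Fin d) :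
    |(p k : ℝ) - x k| ≤ |(v k : ℝ)| := by
  obtain ⟨a, b, ha, hb, hab, hx⟩ := h
  have h1 := congrFun hx k
  simp only [Pi.add_apply, Pi.smul_apply, smul_eq_mul] at h1
  have h2 : (p k : ℝ) - x k = a * v k := by
    rw [← h1]
    have : b = 1 - a := by linarith
    rw [this]; ring
  rw [h2, abs_mul, abs_of_nonneg ha]
  have : a ≤ 1 := by linarith
  nlinarith [abs_nonneg (v k : ℝ)]

theorem tele {d ℓ : ℕ} {p v : ℕ → Fin d → ℤ} (h : IsTraj ℓ p v) (k : Fin d) {i τ : ℕ}
    (hi : i + τ ≤ ℓ) : ∑ r ∈ range τ, v (i + (r + 1)) k = p (i + τ) k - p i k := by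
  induction τ with
  | zero => simp
  | succ τ ih =>
    rw [sum_range_succ, ih (by omega)]
    have := (h (i + τ) (by omega)).1 k
    rw [← add_assoc, this]
    ring

/-- One leg of a trajectory of speed at most `V`: dimension `k` moves by `L`, dimension `k'` by
nothing. -/
theorem leg {ℓ : ℕ} {p v : ℕ → Fin 2 → ℤ} (h : IsTraj ℓ p v) {V L : ℝ} (hV0 : 0 < V)
    (hV : ∀ i ≤ ℓ, ∀ k, |(v i k : ℝ)| ≤ V) {s : ℕ} (hsV : (s : ℝ) ≤ V)
    (h1 : 2 * V * s + 3 * V ≤ L + s ^ 2) (h2 : 2 * V ^ 2 < 3 * (L - 2 * V))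
    {i j : ℕ} (hij : i ≤ j) (hj : j ≤ ℓ) {x y : Fin 2 → ℤ} (hx : Visits (p i) (v i) x)
    (hy : Visits (p j) (v j) y) {k k' : Fin 2} (hk : |(y k : ℝ) - x k| = L) (hk' : y k' = x k') :
    L - 2 * V ≤ ((j - i : ℝ) - 2 * s) * V + s * (|(v i k : ℝ)| + |(v j k : ℝ)|) + s ^ 2 ∧
      |(v i k' : ℝ)| + |(v j k' : ℝ)| ≤ (j - i : ℝ) + 4 := by
  obtain ⟨τ, rfl⟩ := Nat.exists_eq_add_of_le hij
  have hc : ((i + τ : ℕ) : ℝ) - i = τ := by push_cast; ring
  rw [hc]
  have acc : ∀ k, ∀ r < τ, |(fun r => v (i + r) k) (r + 1) - (fun r => v (i + r) k) r| ≤ 1 :=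
    fun k r hr => (h (i + r) (by omega)).2 k
  have spd : ∀ k, ∀ r ≤ τ, |((fun r => v (i + r) k) r : ℝ)| ≤ V :=
    fun k r hr => hV (i + r) (by omega) k
  have sm : ∀ k, ∑ r ∈ range τ, (((fun r => v (i + r) k) (r + 1) : ℤ) : ℝ) =
      (p (i + τ) k : ℝ) - p i k := by
    intro k
    have := tele h k hj
    have h3 : ((∑ r ∈ range τ, v (i + (r + 1)) k : ℤ) : ℝ) = ((p (i + τ) k - p i k : ℤ) : ℝ) := by
      rw [this]
    push_cast at h3
    exact h3
  have px : ∀ k, |(p i k : ℝ) - x k| ≤ V := fun k => (visits_abs hx k).trans (hV i (by omega) k)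
  have py : ∀ k, |(p (i + τ) k : ℝ) - y k| ≤ V := fun k => (visits_abs hy k).trans (hV _ hj k)
  have hD : L - 2 * V ≤ |∑ r ∈ range τ, (((fun r => v (i + r) k) (r + 1) : ℤ) : ℝ)| := by
    rw [sm, ← hk]
    have e : (y k : ℝ) - x k = ((p (i + τ) k : ℝ) - p i k) + (-((p (i + τ) k : ℝ) - y k)) +
        ((p i k : ℝ) - x k) := by ring
    have e1 := abs_add_three ((p (i + τ) k : ℝ) - p i k) (-((p (i + τ) k : ℝ) - y k))
      ((p i k : ℝ) - x k)
    rw [← e, abs_neg] at e1
    have := px k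
    have := py k
    linarith
  constructor
  · have := moving (u := fun r => v (i + r) k) (acc k) (spd k) hD (by linarith) hsV
    simpa using this
  · have hτ : 2 * V < 3 * τ := by
      have h3 : |∑ r ∈ range τ, (((fun r => v (i + r) k) (r + 1) : ℤ) : ℝ)| ≤ τ * V := by
        calc |∑ r ∈ range τ, (((fun r => v (i + r) k) (r + 1) : ℤ) : ℝ)|
            ≤ ∑ r ∈ range τ, |(((fun r => v (i + r) k) (r + 1) : ℤ) : ℝ)| :=
              abs_sum_le_sum_abs _ _
          _ ≤ ∑ r ∈ range τ, V := sum_le_sum fun r hr => spd k _ (by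
              have := mem_range.1 hr; omega)
          _ = τ * V := by simp
      have h5 : L - 2 * V ≤ τ * V := hD.trans h3
      have h6 : 2 * V * V = 2 * V ^ 2 := by ring
      have h7 : 3 * (τ : ℝ) * V = 3 * (τ * V) := by ring
      have h4 : 2 * V * V < 3 * τ * V := by rw [h6, h7]; linarith
      exact lt_of_mul_lt_mul_right h4 hV0.le
    have hD' : |∑ r ∈ range τ, (((fun r => v (i + r) k') (r + 1) : ℤ) : ℝ)| ≤ 2 * V := by
      rw [sm]
      have e : (p (i + τ) k' : ℝ) - p i k' = ((p (i + τ) k' : ℝ) - y k') +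
          (-((p i k' : ℝ) - x k')) := by rw [hk']; ring
      have e1 := abs_add_le ((p (i + τ) k' : ℝ) - y k') (-((p i k' : ℝ) - x k'))
      rw [← e, abs_neg] at e1
      have := px k'
      have := py k'
      linarith
    have := waiting (u := fun r => v (i + r) k') (acc k') hD' hτ
    simpa using this

/-- The lower bound for the length of a trajectory of speed at most `V` that visits the corners of
the square of side `L` in cyclic order. -/
theorem tour_lower {ℓ M : ℕ} {p v : ℕ → Fin 2 → ℤ} (h : IsTraj ℓ p v) {V : ℝ} {L : ℤ} (hV0 : 0 < V)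
    (hV : ∀ i ≤ ℓ, ∀ k, |(v i k : ℝ)| ≤ V) {s : ℕ} (hsV : (s : ℝ) ≤ V)
    (h1 : 2 * V * s + 3 * V ≤ L + s ^ 2) (h2 : 2 * V ^ 2 < 3 * (L - 2 * V))
    {I : ℕ → ℕ} (hI : ∀ j < M, I j ≤ I (j + 1)) (hIℓ : ∀ j ≤ M, I j ≤ ℓ)
    (hvis : ∀ j ≤ M, Visits (p (I j)) (v (I j)) (corner L j)) :
    (M : ℝ) * (L - 2 * V + 2 * s * V - s ^ 2 - 4 * s) ≤ (V + s) * ℓ + 2 * s * V := by
  have hL0 : (0 : ℝ) ≤ L := by nlinarith
  have hL : 0 ≤ L := by exact_mod_cast hL0
  set a : ℕ → ℝ := fun j => |(v (I j) 0 : ℝ)| with ha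
  set b : ℕ → ℝ := fun j => |(v (I j) 1 : ℝ)| with hb
  have key : ∀ j ≤ M,
      (Even j → (j : ℝ) * (L - 2 * V + 2 * s * V - s ^ 2 - 4 * s) ≤
        (V + s) * (I j - I 0) + s * (a 0 - b 0) - s * (a j - b j)) ∧
      (Odd j → (j : ℝ) * (L - 2 * V + 2 * s * V - s ^ 2 - 4 * s) ≤
        (V + s) * (I j - I 0) + s * (a 0 - b 0) + s * (a j - b j)) := by
    intro j
    induction j with
    | zero =>
      intro _
      refine ⟨fun _ => ?_, fun h => absurd h (by decide)⟩
      simp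
    | succ j ih =>
      intro hj
      obtain ⟨ih1, ih2⟩ := ih (by omega)
      constructor
      · intro he
        have ho : Odd j := by
          rcases Nat.even_or_odd j with h3 | h3
          · exact absurd he (by rw [Nat.even_add_one]; simpa using h3)
          · exact h3
        have hk : |((corner L (j + 1) 1 : ℤ) : ℝ) - (corner L j 1 : ℤ)| = L := by
          exact_mod_cast corner_odd_one hL ho
        obtain ⟨l1, l2⟩ := leg h hV0 hV hsV h1 h2 (hI j (by omega)) (hIℓ (j + 1) hj)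
          (hvis j (by omega)) (hvis (j + 1) hj) hk (corner_odd_zero ho)
        have ih' := ih2 ho
        have l3 : (s : ℝ) * (a j + a (j + 1)) ≤ s * ((I (j + 1) : ℝ) - I j + 4) := by
          gcongr
        simp only [ha, hb] at ih' l3 ⊢
        push_cast
        linarith
      · intro ho
        have he : Even j := by
          rcases Nat.even_or_odd j with h3 | h3
          · exact h3
          · exact absurd ho (by rw [Nat.odd_add_one]; simpa using h3)
        have hk : |((corner L (j + 1) 0 : ℤ) : ℝ) - (corner L j 0 : ℤ)| = L := by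
          exact_mod_cast corner_even_zero hL he
        obtain ⟨l1, l2⟩ := leg h hV0 hV hsV h1 h2 (hI j (by omega)) (hIℓ (j + 1) hj)
          (hvis j (by omega)) (hvis (j + 1) hj) hk (corner_even_one he)
        have ih' := ih1 he
        have l3 : (s : ℝ) * (b j + b (j + 1)) ≤ s * ((I (j + 1) : ℝ) - I j + 4) := by
          gcongr
        simp only [ha, hb] at ih' l3 ⊢
        push_cast
        linarith
  have hs0 : (0 : ℝ) ≤ s := Nat.cast_nonneg _
  have a0 : a 0 ≤ V := hV _ (hIℓ 0 (by omega)) 0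
  have aM : a M ≤ V := hV _ (hIℓ M le_rfl) 0
  have bM : b M ≤ V := hV _ (hIℓ M le_rfl) 1
  have a0' : 0 ≤ a 0 := abs_nonneg _
  have b0' : 0 ≤ b 0 := abs_nonneg _
  have aM' : 0 ≤ a M := abs_nonneg _
  have bM' : 0 ≤ b M := abs_nonneg _
  have hIM : (I M : ℝ) - I 0 ≤ ℓ := by
    have : (I M : ℝ) ≤ ℓ := by exact_mod_cast hIℓ M le_rfl
    have : (0 : ℝ) ≤ I 0 := Nat.cast_nonneg _
    linarith
  have e1 : (V + s) * ((I M : ℝ) - I 0) ≤ (V + s) * ℓ := by gcongr
  have e2 : (s : ℝ) * (a 0 - b 0) ≤ s * V := by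
    gcongr; linarith
  have e3 : (s : ℝ) * (a M - b M) ≤ s * V := by
    gcongr; linarith
  have e4 : (s : ℝ) * (-(a M - b M)) ≤ s * V := by
    gcongr; linarith
  rcases Nat.even_or_odd M with h3 | h3
  · have := (key M le_rfl).1 h3
    linarith
  · have := (key M le_rfl).2 h3
    linarith

end Pool.Agent.Q331.Traj
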