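import Pool.Agent.Q331.Traj.Tour

/-!
# The square tour: a short trajectory
-/

open Finset

namespace Pool.Agent.Q331.Traj

/-- A trajectory of length `ℓ` from rest in corner `0`, visiting corners `0, ..., m` in order, ends
in position `q` with velocity `w`. -/
def Reached (L : ℤ) (m ℓ : ℕ) (q w : Fin 2 → ℤ) : Prop :=
  ∃ (p v : ℕ → Fin 2 → ℤ) (I : ℕ → ℕ), IsTraj ℓ p v ∧ p 0 = corner L 0 ∧ v 0 = 0 ∧ p ℓ = q ∧
    v ℓ = w ∧ Monotone I ∧ (∀ j ≤ m, I j ≤ ℓ) ∧ ∀ j ≤ m, Visits (p (I j)) (v (I j)) (corner L j)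

theorem visits_self {d : ℕ} (p v : Fin d → ℤ) : Visits p v p :=
  right_mem_segment ℝ _ _

theorem reached_zero (L : ℤ) : Reached L 0 0 (corner L 0) 0 :=
  ⟨fun _ => corner L 0, fun _ => 0, fun _ => 0, fun i hi => by omega, rfl, rfl, rfl, rfl,
    monotone_const, fun _ _ => le_rfl, fun j hj => by
      have : j = 0 := by omega
      subst this
      exact visits_self _ _⟩

theorem Reached.extend {L : ℤ} {m ℓ : ℕ} {q w : Fin 2 → ℤ} (h : Reached L m ℓ q w) {s : ℕ}
    {u : ℕ → Fin 2 → ℤ} (hu : u 0 = w) (hacc : ∀ i < s, ∀ k, |u (i + 1) k - u i k| ≤ 1)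
    {q' w' : Fin 2 → ℤ} (hq' : ∀ k, q k + ∑ i ∈ range s, u (i + 1) k = q' k) (hw' : u s = w') :
    Reached L m (ℓ + s) q' w' := by
  obtain ⟨p, v, I, h1, h2, h3, h4, h5, h6, h7, h8⟩ := h
  set p' : ℕ → Fin 2 → ℤ := fun t => if t ≤ ℓ then p t else
    fun k => q k + ∑ i ∈ range (t - ℓ), u (i + 1) k with hp'
  set v' : ℕ → Fin 2 → ℤ := fun t => if t ≤ ℓ then v t else u (t - ℓ) with hv'
  have e1 : ∀ t ≤ ℓ, p' t = p t := fun t ht => by simp [hp', ht]
  have e2 : ∀ t ≤ ℓ, v' t = v t := fun t ht => by simp [hv', ht]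
  have e3 : ∀ t k, p' (ℓ + t) k = q k + ∑ i ∈ range t, u (i + 1) k := by
    intro t k
    rcases Nat.eq_zero_or_pos t with h0 | h0
    · subst h0; simp [hp', h4]
    · have : ¬ (ℓ + t ≤ ℓ) := by omega
      simp [hp', this]
  have e4 : ∀ t, v' (ℓ + t) = u t := by
    intro t
    rcases Nat.eq_zero_or_pos t with h0 | h0
    · subst h0; simp [hv', h5, hu]
    · have : ¬ (ℓ + t ≤ ℓ) := by omega
      simp [hv', this]
  refine ⟨p', v', I, ?_, ?_, ?_, ?_, ?_, h6, fun j hj => (h7 j hj).trans (by omega), ?_⟩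
  · intro i hi
    rcases lt_or_ge i ℓ with h0 | h0
    · rw [e1 _ h0.le, e1 _ (by omega), e2 _ h0.le, e2 _ (by omega)]
      exact h1 i h0
    · obtain ⟨t, rfl⟩ := Nat.exists_eq_add_of_le h0
      rw [add_assoc]
      constructor
      · intro k
        rw [e3, e3, e4, sum_range_succ]
        ring
      · intro k
        rw [e4, e4]
        exact hacc t (by omega) k
  · rw [e1 _ (by omega), h2]
  · rw [e2 _ (by omega), h3]
  · funext k
    rw [e3, hq']
  · rw [e4, hw']
  · intro j hj
    rw [e1 _ (h7 j hj), e2 _ (h7 j hj)]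
    exact h8 j hj

theorem Reached.visit {L : ℤ} {m ℓ : ℕ} {w : Fin 2 → ℤ} (h : Reached L m ℓ (corner L (m + 1)) w) :
    Reached L (m + 1) ℓ (corner L (m + 1)) w := by
  obtain ⟨p, v, I, h1, h2, h3, h4, h5, h6, h7, h8⟩ := h
  refine ⟨p, v, fun j => if j ≤ m then I j else ℓ, h1, h2, h3, h4, h5, ?_, ?_, ?_⟩
  · intro i j hij
    by_cases hi : i ≤ m <;> by_cases hj : j ≤ m
    · simp only [hi, hj, if_true]; exact h6 hij
    · simp only [hi, hj, if_true, if_false]; exact h7 i hi
    · omega
    · simp only [hi, hj, if_false]; exact le_rfl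
  · intro j _
    by_cases hj : j ≤ m
    · simp only [hj, if_true]; exact h7 j hj
    · simp only [hj, if_false]; exact le_rfl
  · intro j hj
    by_cases hj' : j ≤ m
    · simp only [hj', if_true]; exact h8 j hj'
    · have : j = m + 1 := by omega
      subst this
      simp only [hj', if_false]
      rw [h4]
      exact visits_self _ _

/-- The velocity in a moving leg. -/
def mv (k : ℕ) (r : ℕ) : ℤ := if r ≤ k then k + r else 3 * k + 1 - r

/-- The velocity in a waiting leg. -/
def wt (k : ℕ) (r : ℕ) : ℤ := if r = 0 then k else k + 1 - r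

theorem mv_zero (k : ℕ) : mv k 0 = k := by simp [mv]

theorem mv_last (k : ℕ) : mv k (2 * k + 1) = k := by
  have : ¬ (2 * k + 1 ≤ k) := by omega
  simp only [mv, this, if_false]
  push_cast; ring

theorem mv_acc (k r : ℕ) : |mv k (r + 1) - mv k r| ≤ 1 := by
  simp only [mv]
  split_ifs <;> rw [abs_le] <;> constructor <;> push_cast <;> omega

theorem mv_sum (k : ℕ) : ∑ r ∈ range (2 * k + 1), mv k (r + 1) = 3 * k ^ 2 + 2 * k := by
  have : 2 * k + 1 = k + 1 + k := by ring
  rw [this, sum_range_add, sum_range_succ]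
  have h1 : ∀ r ∈ range k, mv k (r + 1) = k + (r + 1) := by
    intro r hr
    have : r + 1 ≤ k := mem_range.1 hr
    simp only [mv, this, if_true]
    push_cast; ring
  have h2 : ∀ r ∈ range k, mv k (k + 1 + r + 1) = 2 * k - 1 - r := by
    intro r hr
    have : ¬ (k + 1 + r + 1 ≤ k) := by omega
    simp only [mv, this, if_false]
    push_cast; ring
  have h3 : mv k (k + 1) = 2 * k := by
    have : ¬ (k + 1 ≤ k) := by omega
    simp only [mv, this, if_false]
    push_cast; ring
  rw [sum_congr rfl h1, sum_congr rfl h2, h3]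
  rw [add_right_comm, ← sum_add_distrib]
  have : ∀ r ∈ range k, (((k : ℤ) + (r + 1)) + (2 * (k : ℤ) - 1 - r)) = 3 * k := by
    intro r _; ring
  rw [sum_congr rfl this]
  simp
  ring

theorem wt_zero (k : ℕ) : wt k 0 = k := by simp [wt]

theorem wt_last (k : ℕ) : wt k (2 * k + 1) = -k := by
  simp only [wt, Nat.succ_ne_zero, if_false]
  push_cast; ring

theorem wt_acc (k r : ℕ) : |wt k (r + 1) - wt k r| ≤ 1 := by
  rcases r with _ | r
  · simp [wt]
  · simp only [wt, Nat.succ_ne_zero, if_false]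
    rw [abs_le]
    constructor <;> push_cast <;> linarith

theorem wt_sum (k : ℕ) : ∑ r ∈ range (2 * k + 1), wt k (r + 1) = 0 := by
  have h : ∀ n : ℕ, 2 * ∑ r ∈ range n, wt k (r + 1) = n * (2 * k - n + 1) := by
    intro n
    induction n with
    | zero => simp
    | succ n ih =>
      rw [sum_range_succ, mul_add, ih]
      simp only [wt, Nat.succ_ne_zero, if_false]
      push_cast; ring
  have := h (2 * k + 1)
  push_cast at this
  have e : (2 * (k : ℤ) + 1) * (2 * k - (2 * k + 1) + 1) = 0 := by ring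
  rw [e] at this
  omega

/-- The velocity in corner `j`. -/
def vel (k : ℕ) (j : ℕ) : Fin 2 → ℤ :=
  ![if j % 4 = 0 ∨ j % 4 = 1 then (k : ℤ) else -k, if j % 4 = 1 ∨ j % 4 = 2 then (k : ℤ) else -k]

theorem Reached.leg {k m ℓ : ℕ} (h : Reached (3 * k ^ 2 + 2 * k) m ℓ
    (corner (3 * k ^ 2 + 2 * k) m) (vel k m)) :
    Reached (3 * k ^ 2 + 2 * k) (m + 1) (ℓ + (2 * k + 1))
      (corner (3 * k ^ 2 + 2 * k) (m + 1)) (vel k (m + 1)) := by
  apply Reached.visit
  have hm : m % 4 = 0 ∨ m % 4 = 1 ∨ m % 4 = 2 ∨ m % 4 = 3 := by omega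
  have neg_acc : ∀ f : ℕ → ℤ, (∀ r, |f (r + 1) - f r| ≤ 1) → ∀ r, |-f (r + 1) - -f r| ≤ 1 := by
    intro f hf r
    have := hf r
    rw [← abs_neg] at this
    convert this using 2
    ring
  rcases hm with hm | hm | hm | hm
  · have hm' : (m + 1) % 4 = 1 := by omega
    refine h.extend (u := fun r => ![mv k r, - wt k r]) ?_ ?_ ?_ ?_
    · funext c; fin_cases c <;> simp [vel, hm, mv_zero, wt_zero]
    · intro i _ c
      fin_cases c
      · exact mv_acc k i
      · exact neg_acc _ (wt_acc k) i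
    · intro c
      fin_cases c
      · simp [corner, hm, hm', mv_sum]
      · simp [corner, hm, hm', wt_sum]
    · funext c; fin_cases c <;> simp [vel, hm', mv_last, wt_last]
  · have hm' : (m + 1) % 4 = 2 := by omega
    refine h.extend (u := fun r => ![wt k r, mv k r]) ?_ ?_ ?_ ?_
    · funext c; fin_cases c <;> simp [vel, hm, mv_zero, wt_zero]
    · intro i _ c
      fin_cases c
      · exact wt_acc k i
      · exact mv_acc k i
    · intro c
      fin_cases c
      · simp [corner, hm, hm', wt_sum]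
      · simp [corner, hm, hm', mv_sum]
    · funext c; fin_cases c <;> simp [vel, hm', mv_last, wt_last]
  · have hm' : (m + 1) % 4 = 3 := by omega
    refine h.extend (u := fun r => ![-mv k r, wt k r]) ?_ ?_ ?_ ?_
    · funext c; fin_cases c <;> simp [vel, hm, mv_zero, wt_zero]
    · intro i _ c
      fin_cases c
      · exact neg_acc _ (mv_acc k) i
      · exact wt_acc k i
    · intro c
      fin_cases c
      · simp [corner, hm, hm', mv_sum]
      · simp [corner, hm, hm', wt_sum]
    · funext c; fin_cases c <;> simp [vel, hm', mv_last, wt_last]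
  · have hm' : (m + 1) % 4 = 0 := by omega
    refine h.extend (u := fun r => ![-wt k r, -mv k r]) ?_ ?_ ?_ ?_
    · funext c; fin_cases c <;> simp [vel, hm, mv_zero, wt_zero]
    · intro i _ c
      fin_cases c
      · exact neg_acc _ (wt_acc k) i
      · exact neg_acc _ (mv_acc k) i
    · intro c
      fin_cases c
      · simp [corner, hm, hm', wt_sum]
      · simp [corner, hm, hm', mv_sum]
    · funext c; fin_cases c <;> simp [vel, hm', mv_last, wt_last]

/-- The velocity in the initial phase. -/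
def st (T r : ℕ) : ℤ := if r = 0 then 0 else if r ≤ T then -1 else r - (T + 1)

theorem st_acc (T r : ℕ) : |st T (r + 1) - st T r| ≤ 1 := by
  rcases r with _ | r
  · simp only [st, Nat.succ_ne_zero, if_false, if_true]
    split_ifs with h <;> rw [abs_le] <;> constructor <;> push_cast <;> omega
  · simp only [st, Nat.succ_ne_zero, if_false]
    split_ifs <;> rw [abs_le] <;> constructor <;> push_cast <;> omega

theorem st_sum (k T : ℕ) (hT : T = ∑ j ∈ range (k + 1), j) :
    ∑ r ∈ range (T + (k + 1)), st T (r + 1) = 0 := by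
  rw [sum_range_add]
  have h1 : ∀ r ∈ range T, st T (r + 1) = -1 := by
    intro r hr
    have : r + 1 ≤ T := mem_range.1 hr
    simp [st, this]
  have h2 : ∀ r ∈ range (k + 1), st T (T + r + 1) = r := by
    intro r hr
    have : ¬ (T + r + 1 ≤ T) := by omega
    simp only [st, this, Nat.succ_ne_zero, if_false]
    push_cast; ring
  rw [sum_congr rfl h1, sum_congr rfl h2]
  have h3 : ((∑ j ∈ range (k + 1), j : ℕ) : ℤ) = T := by rw [hT]
  push_cast at h3
  rw [h3]
  simp

/-- The velocity in the final phase. -/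
def en (k T r : ℕ) : ℤ := if r ≤ k then k - r else if r ≤ k + T then -1 else 0

theorem en_acc (k T r : ℕ) : |en k T (r + 1) - en k T r| ≤ 1 := by
  simp only [en]
  split_ifs <;> rw [abs_le] <;> constructor <;> push_cast <;> omega

theorem en_sum (k T : ℕ) (hT : T = ∑ j ∈ range k, j) :
    ∑ r ∈ range (k + T + 1), en k T (r + 1) = 0 := by
  rw [sum_range_succ, sum_range_add]
  have h1 : ∀ r ∈ range k, en k T (r + 1) = ((k - 1 - r : ℕ) : ℤ) := by
    intro r hr
    have : r + 1 ≤ k := mem_range.1 hr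
    simp only [en, this, if_true]
    omega
  have h2 : ∀ r ∈ range T, en k T (k + r + 1) = -1 := by
    intro r hr
    have h0 := mem_range.1 hr
    have h3 : ¬ (k + r + 1 ≤ k) := by omega
    have h4 : k + r + 1 ≤ k + T := by omega
    simp only [en, h3, h4, if_false, if_true]
  have h5 : en k T (k + T + 1) = 0 := by
    have h3 : ¬ (k + T + 1 ≤ k) := by omega
    have h4 : ¬ (k + T + 1 ≤ k + T) := by omega
    simp only [en, h3, h4, if_false]
  rw [sum_congr rfl h1, sum_congr rfl h2, h5]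
  have h6 := sum_range_reflect (fun j => ((j : ℕ) : ℤ)) k
  rw [h6]
  have h3 : ((∑ j ∈ range k, j : ℕ) : ℤ) = T := by rw [hT]
  push_cast at h3
  rw [h3]
  simp

theorem reached_start (L : ℤ) (k : ℕ) : ∃ s₀, Reached L 0 s₀ (corner L 0) (vel k 0) := by
  obtain ⟨T, hT⟩ : ∃ T, T = ∑ j ∈ range (k + 1), j := ⟨_, rfl⟩
  refine ⟨0 + (T + (k + 1)), (reached_zero L).extend (u := fun r => ![st T r, - st T r])
    ?_ ?_ ?_ ?_⟩
  · funext c; fin_cases c <;> simp [st]
  · intro i _ c
    fin_cases c
    · exact st_acc T i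
    · have := st_acc T i
      rw [← abs_neg] at this
      show |-st T (i + 1) - -st T i| ≤ 1
      convert this using 2
      ring
  · intro c
    fin_cases c <;> simp [st_sum k T hT]
  · funext c
    have : st T (T + (k + 1)) = k := by
      have h0 : ¬ (T + (k + 1) ≤ T) := by omega
      have h1 : T + (k + 1) ≠ 0 := by omega
      simp only [st, h0, h1, if_false]
      push_cast; ring
    fin_cases c <;> simp [vel, this]

theorem reached_tour (k : ℕ) : ∃ s₀, ∀ m, Reached (3 * k ^ 2 + 2 * k) m (s₀ + m * (2 * k + 1))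
    (corner (3 * k ^ 2 + 2 * k) m) (vel k m) := by
  obtain ⟨s₀, h⟩ := reached_start (3 * k ^ 2 + 2 * k) k
  refine ⟨s₀, fun m => ?_⟩
  induction m with
  | zero => simpa using h
  | succ m ih =>
    have := ih.leg
    have e : s₀ + m * (2 * k + 1) + (2 * k + 1) = s₀ + (m + 1) * (2 * k + 1) := by ring
    rwa [e] at this

theorem reached_end (k : ℕ) : ∃ C, ∀ N, Reached (3 * k ^ 2 + 2 * k) (4 * N)
    (4 * N * (2 * k + 1) + C) (corner (3 * k ^ 2 + 2 * k) (4 * N)) 0 := by
  obtain ⟨s₀, h⟩ := reached_tour k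
  obtain ⟨T, hT⟩ : ∃ T, T = ∑ j ∈ range k, j := ⟨_, rfl⟩
  refine ⟨s₀ + (k + T + 1), fun N => ?_⟩
  have e : 4 * N * (2 * k + 1) + (s₀ + (k + T + 1)) = s₀ + 4 * N * (2 * k + 1) + (k + T + 1) := by
    ring
  have h4 : 4 * N % 4 = 0 := by omega
  rw [e]
  refine (h (4 * N)).extend (u := fun r => ![en k T r, - en k T r]) ?_ ?_ ?_ ?_
  · funext c; fin_cases c <;> simp [vel, en, h4]
  · intro i _ c
    fin_cases c
    · exact en_acc k T i
    · have := en_acc k T i
      rw [← abs_neg] at this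
      show |-en k T (i + 1) - -en k T i| ≤ 1
      convert this using 2
      ring
  · intro c
    fin_cases c <;> simp [en_sum k T hT]
  · funext c
    have : en k T (k + T + 1) = 0 := by
      have h3 : ¬ (k + T + 1 ≤ k) := by omega
      have h4 : ¬ (k + T + 1 ≤ k + T) := by omega
      simp only [en, h3, h4, if_false]
    fin_cases c <;> simp [this]

/-- The cities of the square tour with `N` rounds. -/
def cities (L : ℤ) (N : ℕ) : Fin (4 * N + 1) → Fin 2 → ℤ := fun j => corner L j

theorem feasible_tour (k : ℕ) : ∃ C, ∀ N, ∃ p v,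
    Feasible (cities (3 * k ^ 2 + 2 * k) N) (4 * N * (2 * k + 1) + C) p v := by
  obtain ⟨C, h⟩ := reached_end k
  refine ⟨C, fun N => ?_⟩
  obtain ⟨p, v, I, h1, h2, h3, h4, h5, h6, h7, h8⟩ := h N
  refine ⟨p, v, h1, ?_, h3, ?_, h5, fun j => I j, ?_, ?_, ?_⟩
  · rw [h2]; rfl
  · rw [h4]; rfl
  · intro i j hij
    exact h6 hij
  · intro j
    exact h7 j (by have := j.2; omega)
  · intro j
    exact h8 j (by have := j.2; omega)

theorem spread_cities {L : ℕ} {N : ℕ} (hN : 1 ≤ N) : spread (cities L N) = L := by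
  apply le_antisymm
  · refine Finset.sup_le fun j _ => Finset.sup_le fun j' _ => Finset.sup_le fun c _ => ?_
    fin_cases c
    · simp only [cities, corner, Fin.zero_eta, Matrix.cons_val_zero]
      split_ifs <;> simp
    · simp only [cities, corner, Fin.mk_one, Matrix.cons_val_one]
      split_ifs <;> simp
  · have h1 : (1 : ℕ) < 4 * N + 1 := by omega
    have h0 : (0 : ℕ) < 4 * N + 1 := by omega
    have e : ((cities L N ⟨1, h1⟩ 0 - cities L N ⟨0, h0⟩ 0).natAbs) = L := by
      simp [cities, corner]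
    calc L = ((cities L N ⟨1, h1⟩ 0 - cities L N ⟨0, h0⟩ 0).natAbs) := e.symm
      _ ≤ Finset.univ.sup fun k => (cities L N ⟨1, h1⟩ k - cities L N ⟨0, h0⟩ k).natAbs :=
          Finset.le_sup (f := fun k => (cities L N ⟨1, h1⟩ k - cities L N ⟨0, h0⟩ k).natAbs)
            (Finset.mem_univ 0)
      _ ≤ Finset.univ.sup fun j' => Finset.univ.sup fun k =>
            (cities L N ⟨1, h1⟩ k - cities L N j' k).natAbs :=
          Finset.le_sup (f := fun j' => Finset.univ.sup fun k =>
            (cities L N ⟨1, h1⟩ k - cities L N j' k).natAbs) (Finset.mem_univ (⟨0, h0⟩ : Fin (4 * N + 1)))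
      _ ≤ spread (cities L N) :=
          Finset.le_sup (f := fun j => Finset.univ.sup fun j' => Finset.univ.sup fun k =>
            (cities L N j k - cities L N j' k).natAbs) (Finset.mem_univ (⟨1, h1⟩ : Fin (4 * N + 1)))

end Pool.Agent.Q331.Traj
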